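import Pool.Agent.Helper48.AA.Goals

/-!
# Project AA (MP_6c0525_nt), packet DG: the second moment
-/

set_option autoImplicit false

open Finset

open scoped Classical

namespace Pool.Agent.Helper14.AA

open Pool.Agent.Helper48.AA

theorem gDG : StmtMB2 → StmtLS → StmtLZ → StmtDG := by
  intro hM hLS hLZ
  obtain ⟨C, hC1, hC⟩ := hLZ 2
  refine ⟨32 * C, by linarith, ?_⟩
  intro z D X P la a hz hD hP hW
  obtain ⟨hla, hsup⟩ := hW
  have hPi : (∏ p ∈ P, p) ≠ 0 := Finset.prod_ne_zero_iff.2 fun p hp => (hP p hp).1.ne_zero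
  set S : Finset ℕ := (Icc 1 D).filter (fun d => d ∣ ∏ p ∈ P, p) with hS
  set f : ℕ → ℕ → ℝ := fun x d => (if d ∣ x + a then (1 : ℝ) else 0) + 1 / (d : ℝ) with hf
  have hf0 : ∀ x d, 0 ≤ f x d := by
    intro x d
    simp only [hf]
    split_ifs <;> positivity
  have hF : ∀ x, |Fx D la a x| ≤ 2 * ∑ d ∈ S, f x d := by
    intro x
    unfold Fx
    have h1 : ∑ d ∈ Icc 1 D, la d * ((if d ∣ x + a then 1 else 0) - 1 / (d : ℝ)) =
        ∑ d ∈ S, la d * ((if d ∣ x + a then 1 else 0) - 1 / (d : ℝ)) := by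
      rw [hS, Finset.sum_filter]
      refine Finset.sum_congr rfl fun d _ => ?_
      by_cases h : d ∣ ∏ p ∈ P, p
      · rw [if_pos h]
      · have h0 : la d = 0 := by
          by_contra hne
          exact h (hsup d hne).1
        rw [if_neg h, h0, zero_mul]
    rw [h1, Finset.mul_sum]
    refine (Finset.abs_sum_le_sum_abs _ _).trans (Finset.sum_le_sum fun d _ => ?_)
    rw [abs_mul]
    have h2 : |(if d ∣ x + a then (1 : ℝ) else 0) - 1 / (d : ℝ)| ≤ f x d := by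
      simp only [hf]
      have h3 : (0 : ℝ) ≤ 1 / (d : ℝ) := by positivity
      rw [abs_le]
      split_ifs
      · constructor <;> linarith
      · constructor <;> linarith
    calc |la d| * |(if d ∣ x + a then (1 : ℝ) else 0) - 1 / (d : ℝ)| ≤ 2 * f x d :=
          mul_le_mul (hla d) h2 (abs_nonneg _) (by norm_num)
      _ = 2 * f x d := rfl
  set Y : Finset (Fin 2 → ℕ) := Fintype.piFinset (fun _ : Fin 2 => S) with hY
  have hF2 : ∀ x, (Fx D la a x) ^ 2 ≤ 4 * ∑ t ∈ Y, ∏ j, f x (t j) := by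
    intro x
    have h1 : (Fx D la a x) ^ 2 ≤ (2 * ∑ d ∈ S, f x d) ^ 2 := by
      rw [← sq_abs]
      exact pow_le_pow_left₀ (abs_nonneg _) (hF x) 2
    have h2 : ∑ t ∈ Y, ∏ j, f x (t j) = (∑ d ∈ S, f x d) ^ 2 := by
      rw [hY, ← Finset.prod_univ_sum (fun _ : Fin 2 => S) (fun _ d => f x d)]
      simp
    rw [h2]
    linarith
  have hMt : ∀ t ∈ Y, ∑ x ∈ Icc 1 X, ∏ j, f x (t j) ≤
      2 ^ (2 + 1) * X / ((univ.lcm t : ℕ) : ℝ) := by
    intro t ht
    rw [hY, Fintype.mem_piFinset] at ht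
    have h1 : ∀ j, 1 ≤ t j ∧ t j ≤ D := by
      intro j
      have := ht j
      rw [hS, Finset.mem_filter, Finset.mem_Icc] at this
      exact this.1
    have h2 : ∏ j, t j ≤ X := by
      rw [Fin.prod_univ_two]
      calc t 0 * t 1 ≤ D * D := Nat.mul_le_mul (h1 0).2 (h1 1).2
        _ = D ^ 2 := (sq D).symm
        _ ≤ X := hD
    exact hM 2 t (fun _ => a) X (fun j => (h1 j).1) h2
  have hYT : Y ⊆ Tp 2 P := by
    unfold Tp
    rw [hY]
    apply Fintype.piFinset_subset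
    intro _ d hd
    rw [hS, Finset.mem_filter] at hd
    exact Nat.mem_divisors.2 ⟨hd.2, hPi⟩
  have hl := (hLS 2 P (fun p hp => (hP p hp).1)).1
  have hlz := hC z hz P hP
  have hX0 : (0 : ℝ) ≤ X := Nat.cast_nonneg X
  calc ∑ x ∈ Icc 1 X, (Fx D la a x) ^ 2
      ≤ ∑ x ∈ Icc 1 X, 4 * ∑ t ∈ Y, ∏ j, f x (t j) := Finset.sum_le_sum fun x _ => hF2 x
    _ = 4 * ∑ t ∈ Y, ∑ x ∈ Icc 1 X, ∏ j, f x (t j) := by
        rw [← Finset.mul_sum, Finset.sum_comm]
    _ ≤ 4 * ∑ t ∈ Y, 2 ^ (2 + 1) * X / ((univ.lcm t : ℕ) : ℝ) := by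
        apply mul_le_mul_of_nonneg_left _ (by norm_num)
        exact Finset.sum_le_sum hMt
    _ = 32 * X * ∑ t ∈ Y, 1 / ((univ.lcm t : ℕ) : ℝ) := by
        rw [Finset.mul_sum, Finset.mul_sum]
        refine Finset.sum_congr rfl fun t _ => ?_
        ring
    _ ≤ 32 * X * ∑ t ∈ Tp 2 P, 1 / ((univ.lcm t : ℕ) : ℝ) := by
        apply mul_le_mul_of_nonneg_left _ (by positivity)
        exact Finset.sum_le_sum_of_subset_of_nonneg hYT fun t _ _ => by positivity
    _ ≤ 32 * X * (C * Real.log z ^ (2 ^ 2)) := by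
        apply mul_le_mul_of_nonneg_left _ (by positivity)
        exact hl.trans hlz
    _ = 32 * C * X * Real.log z ^ 4 := by norm_num; ring

end Pool.Agent.Helper14.AA
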